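import Pool.Agent.Run7.h418.E.Ug

/-!
Piece A1 of the project of helper418: a frame of the field of fractions of a quotient of a
polynomial ring.
-/

set_option autoImplicit false

open MvPolynomial

namespace Run7.h83.EUA1

theorem common_den {P M ι : Type} [CommRing P] [Field M] [Finite ι] (e : P →+* M)
    (h : ∀ m : M, ∃ p q, e q ≠ 0 ∧ m * e q = e p) (f : ι → M) :
    ∃ q : P, e q ≠ 0 ∧ ∀ i, ∃ p, e q * f i = e p := by
  classical
  have := Fintype.ofFinite ι
  choose p q hq hpq using h
  refine ⟨∏ i, q (f i), ?_, fun i => ⟨p (f i) * ∏ j ∈ Finset.univ.erase i, q (f j), ?_⟩⟩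
  · rw [map_prod]
    exact Finset.prod_ne_zero_iff.2 fun i _ => hq (f i)
  · rw [map_mul, ← hpq, ← Finset.mul_prod_erase Finset.univ (fun i => q (f i)) (Finset.mem_univ i),
      map_mul]
    ring

theorem t_A1 : Run7.h418.E.A1 := by
  intro ω S M _ _ _ e hfrac
  classical
  set 𝔉 := IntermediateField.adjoin ℂ (Set.range fun s => e (X (Sum.inr s))) with h𝔉
  set Sx : Set M := Set.range fun l => e (X (Sum.inl l)) with hSx
  have hmem : ∀ p : MvPolynomial (ω ⊕ S) ℂ, e p ∈ Algebra.adjoin 𝔉 Sx := by
    intro p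
    induction p using MvPolynomial.induction_on with
    | C a =>
      have h1 : e (C a) = algebraMap ℂ M a := e.commutes a
      rw [h1]
      exact (Algebra.adjoin 𝔉 Sx).algebraMap_mem (algebraMap ℂ 𝔉 a)
    | add p q hp hq => rw [map_add]; exact add_mem hp hq
    | mul_X p i hp =>
      rw [map_mul]
      refine mul_mem hp ?_
      rcases i with l | s
      · exact Algebra.subset_adjoin ⟨l, rfl⟩
      · exact (Algebra.adjoin 𝔉 Sx).algebraMap_mem
          (⟨e (X (Sum.inr s)), IntermediateField.subset_adjoin ℂ _ ⟨s, rfl⟩⟩ : 𝔉)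
  have halg : Algebra.IsAlgebraic (Algebra.adjoin 𝔉 Sx) M := by
    constructor
    intro m
    obtain ⟨p, q, hq, hpq⟩ := hfrac m
    refine ⟨Polynomial.C (⟨e q, hmem q⟩ : Algebra.adjoin 𝔉 Sx) * Polynomial.X -
      Polynomial.C (⟨e p, hmem p⟩ : Algebra.adjoin 𝔉 Sx), ?_, ?_⟩
    · intro h0
      have h1 := congrArg (fun r : Polynomial (Algebra.adjoin 𝔉 Sx) => r.coeff 1) h0
      simp only [Polynomial.coeff_sub, Polynomial.coeff_C_mul, Polynomial.coeff_X_one, mul_one,
        Polynomial.coeff_C_succ, sub_zero, Polynomial.coeff_zero] at h1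
      exact hq (congrArg Subtype.val h1)
    · rw [map_sub, map_mul, Polynomial.aeval_C, Polynomial.aeval_C, Polynomial.aeval_X]
      show e q * m - e p = 0
      rw [← hpq]
      ring
  obtain ⟨t, hts, ht⟩ := exists_isTranscendenceBasis_subset (R := 𝔉) Sx
  have hfin : Finite t := Set.Finite.to_subtype ((Set.finite_range _).subset hts)
  set d := Nat.card t with hd
  let φ : Fin d ≃ t := (Finite.equivFin t).symm
  choose tt htt using fun i : Fin d => hts (φ i).2
  have hbasis : IsTranscendenceBasis 𝔉 (fun b => e (X (Sum.inl (tt b)))) := by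
    have h1 : (fun b => e (X (Sum.inl (tt b)))) = (fun i => ((φ i : t) : M)) :=
      funext fun b => htt b
    rw [h1]
    exact ht.comp_equiv φ
  have hchar : CharZero 𝔉 := charZero_of_injective_algebraMap (algebraMap ℂ 𝔉).injective
  obtain ⟨D, hD⟩ := Pool.Agent.Y191.exists_dual hbasis.1
  obtain ⟨q, hq, hp⟩ := common_den (e : MvPolynomial (ω ⊕ S) ℂ →+* M) hfrac
    (fun bl : Fin d × ω => D bl.1 (e (X (Sum.inl bl.2))))
  choose p hp using hp
  refine ⟨d, tt, q, fun b => mkDerivation ℂ (Sum.elim (fun l => p (b, l)) (fun _ => 0)), hbasis, hq,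
    fun b s => ?_, fun b G hG => ?_, fun b c => ?_⟩
  · rw [mkDerivation_X]
    rfl
  all_goals
    have key : ∀ G, e (mkDerivation ℂ (Sum.elim (fun l => p (b, l)) (fun _ => 0)) G) =
        e q * D b (e G) := by
      intro G
      induction G using MvPolynomial.induction_on with
      | C a =>
        have h1 : e (C a) = algebraMap 𝔉 M (algebraMap ℂ 𝔉 a) := e.commutes a
        have h5 : ∀ V : Derivation ℂ (MvPolynomial (ω ⊕ S) ℂ) (MvPolynomial (ω ⊕ S) ℂ),
            V (C a) = 0 := fun V => Derivation.map_algebraMap V a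
        rw [h1, Derivation.map_algebraMap, mul_zero, h5, map_zero]
      | add p q hp hq => rw [map_add, map_add, map_add, map_add, hp, hq, mul_add]
      | mul_X G i hG =>
        rw [Derivation.leibniz, map_add, smul_eq_mul, smul_eq_mul, map_mul, map_mul, hG, map_mul,
          Derivation.leibniz, smul_eq_mul, smul_eq_mul, mkDerivation_X]
        rcases i with l | s
        · have h2 := hp (b, l)
          simp only [Sum.elim_inl]
          have h3 : e q * D b (e (X (Sum.inl l))) = e (p (b, l)) := h2
          rw [← h3]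
          ring
        · have h3 : e (X (Sum.inr s)) = algebraMap 𝔉 M
              (⟨e (X (Sum.inr s)), IntermediateField.subset_adjoin ℂ _ ⟨s, rfl⟩⟩ : 𝔉) := rfl
          have h4 : D b (e (X (Sum.inr s))) = 0 := by
            rw [h3]
            exact Derivation.map_algebraMap _ _
          simp only [Sum.elim_inr, map_zero]
          rw [h4]
          ring
  · rw [key, hG, map_zero, mul_zero]
  · rw [key, hD]
    split_ifs <;> simp

end Run7.h83.EUA1
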